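import Pool.Agent.W425.SM.Stmts

set_option autoImplicit false

/-! The limit of the smoothed integrals: preparations. -/

namespace Pool.Agent.W349.SM

open MvPolynomial Pool.Agent.H628R4.TZ Pool.Agent.H628R4.TP MeasureTheory Filter Topology
open Pool.Agent.W425.SM

/-- the smooth bump: the derivative of the smooth step -/
noncomputable def rho (t : ℝ) : ℝ := -ph 1 1 t

lemma stp_one (t : ℝ) : stp 1 t = Real.smoothTransition t := by simp [stp]

lemma rho_eq (t : ℝ) : rho t = deriv Real.smoothTransition t := by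
  unfold rho ph
  have : stp 1 = Real.smoothTransition := funext stp_one
  rw [this]
  simp

lemma ph_one_scale (ε : ℝ) (hε : 0 < ε) (t : ℝ) : ε * (-ph ε 1 (ε * t)) = rho t := by
  rw [rho_eq]
  unfold ph
  rw [iteratedDeriv_one]
  have h1 : HasDerivAt Real.smoothTransition (deriv Real.smoothTransition t) (ε * t / ε) := by
    rw [mul_div_cancel_left₀ _ hε.ne']
    exact ((Real.smoothTransition.contDiff (n := 1)).differentiable (by norm_num) t).hasDerivAt
  have h2 : HasDerivAt (stp ε) (deriv Real.smoothTransition t * (1 / ε)) (ε * t) := by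
    unfold stp
    exact h1.comp (ε * t) ((hasDerivAt_id _).div_const ε)
  rw [h2.deriv]
  field_simp

lemma rho_cont : Continuous rho := ((ph_dseq 1 one_pos).cont 1).neg

lemma rho_neg (t : ℝ) (ht : t < 0) : rho t = 0 := by
  unfold rho; rw [ph_neg 1 one_pos 1 t ht, neg_zero]

lemma rho_big (t : ℝ) (ht : 1 < t) : rho t = 0 := by
  unfold rho; rw [ph_big 1 one_pos 1 le_rfl t ht, neg_zero]

lemma rho_supp : HasCompactSupport rho := by
  refine HasCompactSupport.intro (isCompact_Icc (a := (0:ℝ)) (b := 1)) fun t ht => ?_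
  rw [Set.mem_Icc, not_and_or] at ht
  rcases ht with h | h
  · exact rho_neg t (not_le.1 h)
  · exact rho_big t (not_le.1 h)

lemma rho_int : Integrable rho := rho_cont.integrable_of_hasCompactSupport rho_supp

lemma rho_integral : ∫ t, rho t = 1 := by
  have h1 : ∀ t, HasDerivAt Real.smoothTransition (rho t) t := by
    intro t
    rw [rho_eq]
    exact ((Real.smoothTransition.contDiff (n := 1)).differentiable (by norm_num) t).hasDerivAt
  have h2 : ∫ t in (-1:ℝ)..2, rho t = 1 := by
    rw [intervalIntegral.integral_eq_sub_of_hasDerivAt (fun t _ => h1 t)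
      (rho_cont.intervalIntegrable _ _)]
    rw [Real.smoothTransition.one_of_one_le (by norm_num),
      Real.smoothTransition.zero_of_nonpos (by norm_num)]
    norm_num
  rw [← h2, intervalIntegral.integral_of_le (by norm_num)]
  symm
  refine setIntegral_eq_integral_of_forall_compl_eq_zero fun t ht => ?_
  rw [Set.mem_Ioc, not_and_or] at ht
  rcases ht with h | h
  · exact rho_neg t (by linarith)
  · exact rho_big t (by linarith)

lemma stp_bd (ε : ℝ) (t : ℝ) : |stp ε t| ≤ 1 := by
  unfold stp
  rw [abs_of_nonneg (Real.smoothTransition.nonneg _)]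
  exact Real.smoothTransition.le_one _

/-- scaling of the first factor -/
lemma scale_fst {κ : Type*} [Fintype κ] {d : ℕ} (c : ℝ) (hc : 0 < c)
    (F : (κ → ℝ) × (Fin d → ℝ) → ℂ) :
    ∫ p, F p = (c : ℂ) ^ Fintype.card κ * ∫ p : (κ → ℝ) × (Fin d → ℝ), F (c • p.1, p.2) := by
  have hm : Measure.map (Prod.map (c • ·) id) (volume : Measure ((κ → ℝ) × (Fin d → ℝ))) =
      ENNReal.ofReal (abs (c ^ Fintype.card κ)⁻¹) • volume := by
    rw [Measure.volume_eq_prod, ← Measure.map_prod_map _ _ (measurable_const_smul c) measurable_id,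
      Measure.map_addHaar_smul _ hc.ne', Measure.map_id, Measure.prod_smul_left]
    simp
  have he : MeasurableEmbedding (Prod.map (c • ·) id : (κ → ℝ) × (Fin d → ℝ) → _) := by
    have h1 : MeasurableEmbedding ((c • ·) : (κ → ℝ) → _) :=
      (Homeomorph.smulOfNeZero c hc.ne').measurableEmbedding
    exact ((Homeomorph.smulOfNeZero c hc.ne').prodCongr (Homeomorph.refl _)).measurableEmbedding
  have h2 := he.integral_map (μ := (volume : Measure ((κ → ℝ) × (Fin d → ℝ)))) F
  rw [hm, integral_smul_measure] at h2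
  have h3 : (ENNReal.ofReal (abs (c ^ Fintype.card κ)⁻¹)).toReal = (c ^ Fintype.card κ)⁻¹ := by
    rw [ENNReal.toReal_ofReal (abs_nonneg _), abs_of_nonneg (by positivity)]
  rw [h3] at h2
  have h4 : (∫ p : (κ → ℝ) × (Fin d → ℝ), F (c • p.1, p.2)) =
      ∫ p : (κ → ℝ) × (Fin d → ℝ), F (Prod.map (c • ·) id p) := rfl
  rw [h4, ← h2, Complex.real_smul]
  push_cast
  rw [← mul_assoc, mul_inv_cancel₀ (pow_ne_zero _ (by exact_mod_cast hc.ne')), one_mul]

end Pool.Agent.W349.SM
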