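import Pool.Agent.W349.SM.A

set_option autoImplicit false

/-! The limit of the smoothed integrals: linear algebra and bounds. -/

namespace Pool.Agent.W349.SM

open MvPolynomial Pool.Agent.H628R4.TZ Pool.Agent.H628R4.TP MeasureTheory Filter Topology
open Pool.Agent.W425.SM

lemma dual_coeff {r N : ℕ} (v : Fin r → Fin N → ℕ) (hv : Ind v) (j0 : Fin r) :
    ∃ (A : Fin N → ℚ) (B : ℚ), ∀ j, ∑ i, (v j i : ℚ) * A i + B = if j = j0 then 1 else 0 := by
  classical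
  set w : Fin r → (Fin N → ℚ) × ℚ := fun j => ((fun i => (v j i : ℚ)), 1) with hw
  have hinj : LinearMap.ker (Fintype.linearCombination ℚ w) = ⊥ := by
    rw [LinearMap.ker_eq_bot']
    intro g hg
    rw [Fintype.linearCombination_apply] at hg
    have h1 : ∑ j, g j = 0 := by
      have := congrArg Prod.snd hg
      simpa [hw, Prod.snd_sum] using this
    have h2 : ∑ j, g j • (fun i => (v j i : ℚ)) = 0 := by
      have := congrArg Prod.fst hg
      simpa [hw, Prod.fst_sum] using this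
    funext j
    exact (affineIndependent_iff.1 hv) Finset.univ g h1 h2 j (Finset.mem_univ _)
  obtain ⟨h, hh⟩ := LinearMap.exists_leftInverse_of_injective _ hinj
  set l : (Fin N → ℚ) × ℚ →ₗ[ℚ] ℚ := (LinearMap.proj j0) ∘ₗ h with hl
  have h3 : ∀ j, l (w j) = if j = j0 then 1 else 0 := by
    intro j
    have h4 : Fintype.linearCombination ℚ w (Pi.single j 1) = w j := by
      rw [Fintype.linearCombination_apply_single, one_smul]
    have h5 := LinearMap.congr_fun hh (Pi.single j 1)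
    rw [LinearMap.comp_apply, h4, LinearMap.id_apply] at h5
    rw [hl, LinearMap.comp_apply, h5, LinearMap.proj_apply, Pi.single_apply]
    simp only [eq_comm]
  refine ⟨fun i => l (fun k => if i = k then 1 else 0, 0), l (0, 1), fun j => ?_⟩
  rw [← h3 j]
  have h6 : w j = ((fun i => (v j i : ℚ)), (0 : ℚ)) + ((0 : Fin N → ℚ), (1 : ℚ)) := by
    rw [hw]; simp
  rw [h6, map_add]
  congr 1
  have h7 := LinearMap.pi_apply_eq_sum_univ (l ∘ₗ LinearMap.inl ℚ (Fin N → ℚ) ℚ)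
    (fun i => (v j i : ℚ))
  simp only [LinearMap.comp_apply, LinearMap.inl_apply, smul_eq_mul] at h7
  exact h7.symm

lemma form_ne {r N : ℕ} (v : Fin r → Fin N → ℕ) (hv : Ind v) {J : Finset (Fin r)} {d : ℕ}
    {Θ : ((J → ℝ) × (Fin d → ℝ)) ≃ₗ[ℝ] (Fin (N+1) → ℝ)} {θ : ℝ} (hA : Adapt v J d Θ θ)
    (j0 : Fin r) (hj0 : j0 ∉ J) : ∃ a : Fin d → ℝ, ymap v (Θ (0, a)) j0 ≠ 0 := by
  obtain ⟨A, B, hAB⟩ := dual_coeff v hv j0
  set x : Fin (N+1) → ℝ := Fin.cons (-(B:ℝ)) (fun i => (A i : ℝ)) with hx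
  have h1 : ∀ j, ymap v x j = if j = j0 then 1 else 0 := by
    intro j
    have h2 := hAB j
    have h3 : ymap v x j = ((∑ i, (v j i : ℚ) * A i + B : ℚ) : ℝ) := by
      unfold ymap
      rw [hx]
      simp only [Fin.cons_zero, Fin.cons_succ]
      push_cast
      ring
    rw [h3, h2]
    split_ifs <;> simp
  have h2 : (Θ.symm x).1 = 0 := by
    funext j
    have h3 := hA.y (Θ.symm x).1 (Θ.symm x).2 j
    rw [Prod.mk.eta, LinearEquiv.apply_symm_apply, h1] at h3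
    rw [← h3, if_neg]
    · rfl
    · intro h
      exact hj0 (h ▸ j.2)
  refine ⟨(Θ.symm x).2, ?_⟩
  rw [← h2, Prod.mk.eta, LinearEquiv.apply_symm_apply, h1, if_pos rfl]
  exact one_ne_zero

lemma exp_abs_int (c : ℝ) (hc : 0 < c) : Integrable (fun t : ℝ => Real.exp (-c * |t|)) := by
  rw [← integrableOn_univ, ← Set.Iic_union_Ioi (a := (0:ℝ))]
  refine IntegrableOn.union ?_ ?_
  · refine (integrableOn_exp_mul_Iic hc 0).congr_fun (fun t ht => ?_) measurableSet_Iic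
    simp only
    rw [abs_of_nonpos (Set.mem_Iic.1 ht)]
    congr 1; ring
  · refine (exp_neg_integrableOn_Ioi 0 hc).congr_fun (fun t ht => ?_) measurableSet_Ioi
    simp only
    rw [abs_of_pos (Set.mem_Ioi.1 ht)]

lemma wt_bd {N : ℕ} (s : ℝ) (hs : 0 < s) (x : Fin (N+1) → ℝ) (hx : ∀ i, 0 < x i) :
    ‖wt (lm (N := N) s) x‖ ≤ Real.exp (-(min s 1) * ‖x‖) := by
  unfold wt
  rw [norm_prod]
  simp only [Complex.norm_real, Real.norm_eq_abs, Real.abs_exp]
  rw [← Real.exp_sum]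
  refine Real.exp_le_exp.2 ?_
  have h1 : ‖x‖ ≤ ∑ i, x i := by
    rw [pi_norm_le_iff_of_nonneg (Finset.sum_nonneg fun i _ => (hx i).le)]
    intro i
    rw [Real.norm_of_nonneg (hx i).le]
    exact Finset.single_le_sum (fun j _ => (hx j).le) (Finset.mem_univ i)
  have h2 : ∀ i, min s 1 ≤ lm (N := N) s i := by
    intro i
    unfold lm
    refine Fin.cases ?_ (fun j => ?_) i
    · simp
    · simp
  have h3 : min s 1 * ∑ i, x i ≤ ∑ i, lm (N := N) s i * x i := by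
    rw [Finset.mul_sum]
    exact Finset.sum_le_sum fun i _ => mul_le_mul_of_nonneg_right (h2 i) (hx i).le
  have h4 : 0 < min s 1 := lt_min hs one_pos
  have h5 : ∑ i, -lm (N := N) s i * x i = -∑ i, lm (N := N) s i * x i := by
    rw [← Finset.sum_neg_distrib]
    exact Finset.sum_congr rfl fun i _ => by ring
  rw [h5]
  nlinarith [mul_le_mul_of_nonneg_left h1 h4.le]

/-- the exponential bound in the coordinates -/
lemma exp_bd {r N : ℕ} {J : Finset (Fin r)} {d : ℕ}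
    (Θ : ((J → ℝ) × (Fin d → ℝ)) ≃ₗ[ℝ] (Fin (N+1) → ℝ)) (c B : ℝ) (hc : 0 < c) :
    ∃ C c' : ℝ, 0 ≤ C ∧ 0 < c' ∧ ∀ (z : J → ℝ) (a : Fin d → ℝ) (b : Fin (N+1) → ℝ), ‖b‖ ≤ B →
      Real.exp (-c * ‖Θ (z, a) + b‖) ≤ C * ∏ i, Real.exp (-c' * |a i|) := by
  set L : (Fin (N+1) → ℝ) →L[ℝ] ((J → ℝ) × (Fin d → ℝ)) :=
    LinearMap.toContinuousLinearMap (Θ.symm : (Fin (N+1) → ℝ) →ₗ[ℝ] _) with hL
  set Q : ℝ := ‖L‖ + 1 with hQ
  have hQ0 : 0 < Q := by positivity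
  refine ⟨Real.exp (c * B), c / (Q * (d + 1)), (Real.exp_pos _).le, by positivity,
    fun z a b hb => ?_⟩
  have h1 : ‖a‖ ≤ Q * (‖Θ (z, a) + b‖ + B) := by
    have h2 : ‖a‖ ≤ ‖(z, a)‖ := by rw [Prod.norm_def]; exact le_max_right _ _
    have h3 : ‖(z, a)‖ ≤ ‖L‖ * ‖Θ (z, a)‖ := by
      have := L.le_opNorm (Θ (z, a))
      have h4 : L (Θ (z, a)) = (z, a) := by rw [hL]; simp
      rwa [h4] at this
    have h5 : ‖Θ (z, a)‖ ≤ ‖Θ (z, a) + b‖ + B := by
      have : Θ (z, a) = (Θ (z, a) + b) - b := by abel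
      calc ‖Θ (z, a)‖ = ‖(Θ (z, a) + b) - b‖ := by rw [← this]
        _ ≤ ‖Θ (z, a) + b‖ + ‖b‖ := norm_sub_le _ _
        _ ≤ _ := by linarith
    have h6 : 0 ≤ ‖Θ (z, a)‖ := norm_nonneg _
    calc ‖a‖ ≤ ‖L‖ * ‖Θ (z, a)‖ := h2.trans h3
      _ ≤ Q * ‖Θ (z, a)‖ := mul_le_mul_of_nonneg_right (by rw [hQ]; linarith) h6
      _ ≤ _ := mul_le_mul_of_nonneg_left h5 hQ0.le
  have h2 : ∑ i, |a i| ≤ (d + 1) * ‖a‖ := by
    calc ∑ i, |a i| ≤ ∑ _i : Fin d, ‖a‖ := Finset.sum_le_sum fun i _ => by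
          rw [← Real.norm_eq_abs]; exact norm_le_pi_norm a i
      _ = d * ‖a‖ := by simp
      _ ≤ _ := by nlinarith [norm_nonneg a]
  rw [← Real.exp_sum, ← Real.exp_add]
  refine Real.exp_le_exp.2 ?_
  have h3 : ∑ i, -(c / (Q * (d + 1))) * |a i| = -(c / (Q * (d + 1))) * ∑ i, |a i| := by
    rw [Finset.mul_sum]
  rw [h3]
  have h4 : ∑ i, |a i| ≤ (Q * (d + 1)) * (‖Θ (z, a) + b‖ + B) := by
    have hd : (0:ℝ) < d + 1 := by positivity
    nlinarith [mul_le_mul_of_nonneg_left h1 hd.le]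
  have h5 : (c / (Q * (d + 1))) * ∑ i, |a i| ≤ c * (‖Θ (z, a) + b‖ + B) := by
    have hd : (0:ℝ) < Q * (d + 1) := by positivity
    have := mul_le_mul_of_nonneg_left h4 (div_pos hc hd).le
    calc _ ≤ _ := this
      _ = c * (‖Θ (z, a) + b‖ + B) := by field_simp
  linarith

end Pool.Agent.W349.SM
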